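import Pool.Agent.helper53.AU.SpecG3

/-!
# Project au, module B2
-/

namespace Pool.Agent.helper53.AU

open scoped Classical

/-- counting for a group acting with one fixed point and freely elsewhere -/
theorem B2_count (K X : Type) [Group K] [Finite K] [Finite X] [MulAction K X] (x₀ : X)
    (h0 : ∀ k : K, k • x₀ = x₀) (hf : ∀ k : K, ∀ x : X, x ≠ x₀ → k • x = x → k = 1) :
    Nat.card X ≡ 1 [MOD Nat.card K] := by
  let Y : SubMulAction K X :=
    { carrier := {x | x ≠ x₀}
      smul_mem' := by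
        intro k x hx he
        apply hx
        have h1 : k⁻¹ • (k • x) = k⁻¹ • x₀ := by rw [he]
        rw [inv_smul_smul, h0] at h1
        exact h1 }
  have hfree : ∀ y : Y, MulAction.stabilizer K y = ⊥ := by
    intro y
    rw [eq_bot_iff]
    intro k hk
    rw [MulAction.mem_stabilizer_iff] at hk
    have h1 : k • (y : X) = y := congrArg Subtype.val hk
    exact Subgroup.mem_bot.2 (hf k y y.2 h1)
  have h2 := Nat.card_congr (MulAction.selfEquivOrbitsQuotientProd hfree)
  rw [Nat.card_prod] at h2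
  have h3 : Nat.card X = Nat.card Y + 1 := by
    have e1 : Nat.card (Option Y) = Nat.card Y + 1 := Finite.card_option
    rw [← e1]
    refine Nat.card_congr ?_
    exact (Equiv.optionSubtypeNe x₀).symm
  rw [h3, h2]
  have h4 : Nat.card (Quotient (MulAction.orbitRel K Y)) * Nat.card K ≡ 0 [MOD Nat.card K] :=
    (Nat.modEq_zero_iff_dvd).2 (Dvd.intro_left _ rfl)
  have h5 := h4.add_right 1
  rwa [zero_add] at h5

/-- The odd part is a Hall subgroup. -/
theorem B2_hall (hAB : AB_stmt) {L Ω : Type} [Group L] [MulAction L Ω] {A : Subgroup L}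
    (h : LL L Ω A) : Nat.Coprime (Nat.card (oddPart A)) (Nat.card L / Nat.card (oddPart A)) := by
  have := h.finL
  have := h.finΩ
  have := h.faithful
  have := h.trans
  obtain ⟨-, -, h3, h4, -⟩ := hAB L A h.cyc
  have hne : Nonempty Ω := by
    by_contra hne
    rw [not_nonempty_iff] at hne
    obtain ⟨a, b, hab⟩ := h.nonab
    exact hab (FaithfulSMul.eq_of_smul_eq_smul (α := Ω) fun ω => (hne.false ω).elim)
  obtain ⟨α⟩ := hne
  have h5 : Nat.card L = Nat.card Ω * Nat.card (MulAction.stabilizer L α) := by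
    have e1 := Nat.card_congr (MulAction.orbitProdStabilizerEquivGroup L α)
    rw [Nat.card_prod] at e1
    have e2 : Nat.card (MulAction.orbit L α) = Nat.card Ω := by
      rw [MulAction.orbit_eq_univ]
      exact Nat.card_congr (Equiv.Set.univ Ω)
    rw [← e1, e2]
  have h6 : Nat.card Ω = Nat.card (oddPart A) * (2 * Nat.card (twoPart A)) := by
    rw [← h.cardA, ← h3]
    ring
  have hpos : 0 < Nat.card (oddPart A) := Nat.card_pos
  have h7 : Nat.card L / Nat.card (oddPart A) =
      2 * Nat.card (twoPart A) * Nat.card (MulAction.stabilizer L α) := by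
    rw [h5, h6, mul_assoc, Nat.mul_div_cancel_left _ hpos]
  rw [h7]
  obtain ⟨n, hn⟩ := (hAB L A h.cyc).2.2.2.2.1
  have h8 : Nat.Coprime (Nat.card (oddPart A)) (2 * Nat.card (twoPart A)) := by
    rw [hn, ← pow_succ']
    exact Nat.Coprime.pow_right _ (Nat.coprime_two_right.2 h4)
  have h9 : Nat.Coprime (Nat.card (oddPart A)) (Nat.card (MulAction.stabilizer L α)) := by
    have e1 := (h.copr α).symm
    rw [h6] at e1
    exact Nat.Coprime.coprime_mul_right e1
  exact Nat.Coprime.mul_right h8 h9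

theorem B2 (hAB : AB_stmt) (hNH : NH_stmt) : B2_stmt := by
  intro L Ω _ _ A t h ht hcomm hB1
  have := h.finL
  have := h.finΩ
  set K := oddPart A with hK
  set N := Subgroup.normalizer (K : Set L) with hN
  have hKN : K ≤ N := Subgroup.le_normalizer
  have hHall := B2_hall hAB h
  have hnorm : ∀ x ∈ N, ∀ y ∈ K, x * y * x⁻¹ ∈ K := by
    intro x hx y hy
    exact (Subgroup.mem_normalizer_iff.1 hx y).1 hy
  -- K is a Hall subgroup of N
  have hcop : Nat.Coprime (Nat.card K) (Nat.card N / Nat.card K) := by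
    have h1 : Nat.card N ∣ Nat.card L := Subgroup.card_subgroup_dvd_card N
    have h2 : Nat.card K ∣ Nat.card N := Subgroup.card_dvd_of_le hKN
    have h3 : Nat.card N / Nat.card K ∣ Nat.card L / Nat.card K := Nat.div_dvd_div h2 h1
    exact Nat.Coprime.coprime_dvd_right h3 hHall
  have hHN : ∀ x ∈ N, x ^ (Nat.card K) = 1 → x ∈ K := hNH L K N hKN hnorm hcop
  have hord : ∀ a ∈ K, a ^ (Nat.card K) = 1 := by
    intro a ha
    have h1 : (⟨a, ha⟩ : K) ^ (Nat.card K) = 1 := pow_card_eq_one'
    exact congrArg Subtype.val h1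
  -- TI property
  have hTI : ∀ g : L, ∀ a ∈ K, a ≠ 1 → g⁻¹ * a * g ∈ N → g ∈ N := by
    intro g a ha hane hga
    -- an element of prime order
    have h1 : orderOf a ≠ 1 := fun e => hane (orderOf_eq_one_iff.1 e)
    obtain ⟨r, hr, hra⟩ := Nat.exists_prime_and_dvd h1
    set ρ := a ^ (orderOf a / r) with hρ
    have hρord : orderOf ρ = r := by
      have h2 : 0 < orderOf a := orderOf_pos a
      exact orderOf_pow_orderOf_div h2.ne' hra
    have hρK : ρ ∈ K := K.pow_mem ha _
    set σ := g⁻¹ * ρ * g with hσ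
    have hσpow : σ = (g⁻¹ * a * g) ^ (orderOf a / r) := by
      rw [hσ, hρ]
      have h2 := conj_pow (i := orderOf a / r) (a := g⁻¹) (b := a)
      rw [inv_inv] at h2
      exact h2.symm
    have hσN : σ ∈ N := by rw [hσpow]; exact N.pow_mem hga _
    have hσK : σ ∈ K := by
      refine hHN σ hσN ?_
      have h2 : σ ^ (Nat.card K) = g⁻¹ * ρ ^ (Nat.card K) * g := by
        have h3 := conj_pow (i := Nat.card K) (a := g⁻¹) (b := ρ)
        rw [inv_inv] at h3
        exact h3
      rw [h2, hord ρ hρK]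
      simp
    have hσord : orderOf σ = r := by
      have h2 : σ = MulAut.conj g⁻¹ ρ := by rw [MulAut.conj_apply, inv_inv]
      rw [h2, MulEquiv.orderOf_eq, hρord]
    have hσp : (orderOf σ).Prime := hσord ▸ hr
    -- conjugates of K centralise σ
    have hcl : ∀ b ∈ K, g⁻¹ * b * g ∈ K := by
      intro b hb
      have hbρ : b * ρ = ρ * b := by
        have := (hAB L A h.cyc).2.2.2.2.2.1
        have h2 := (IsCyclic.isMulCommutative (α := K)).is_comm.comm ⟨b, hb⟩ ⟨ρ, hρK⟩
        exact congrArg Subtype.val h2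
      have h3 : (g⁻¹ * b * g) * σ = σ * (g⁻¹ * b * g) := by
        rw [hσ]
        have e1 : (g⁻¹ * b * g) * (g⁻¹ * ρ * g) = g⁻¹ * (b * ρ) * g := by group
        have e2 : (g⁻¹ * ρ * g) * (g⁻¹ * b * g) = g⁻¹ * (ρ * b) * g := by group
        rw [e1, e2, hbρ]
      have h4 : g⁻¹ * b * g ∈ N := by
        have h5 : ∀ y : L, y * σ = σ * y → ∀ a ∈ K, y * a * y⁻¹ ∈ K := fun y hy =>
          hB1 σ hσK hσp y hy
        rw [hN, Subgroup.mem_normalizer_iff]
        intro z
        constructor
        · intro hz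
          exact h5 _ h3 z hz
        · intro hz
          have h6 : (g⁻¹ * b * g)⁻¹ * σ = σ * (g⁻¹ * b * g)⁻¹ := by
            rw [inv_mul_eq_iff_eq_mul, ← mul_assoc, h3, mul_assoc, mul_inv_cancel, mul_one]
          have h7 := h5 _ h6 _ hz
          have e3 : (g⁻¹ * b * g)⁻¹ * (g⁻¹ * b * g * z * (g⁻¹ * b * g)⁻¹) *
              (g⁻¹ * b * g)⁻¹⁻¹ = z := by group
          rwa [e3] at h7
      refine hHN _ h4 ?_
      have h5 : (g⁻¹ * b * g) ^ (Nat.card K) = g⁻¹ * b ^ (Nat.card K) * g := by
        have h6 := conj_pow (i := Nat.card K) (a := g⁻¹) (b := b)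
        rw [inv_inv] at h6
        exact h6
      rw [h5, hord b hb]
      simp
    -- so g normalises K
    have hmem : g⁻¹ ∈ N := by
      rw [hN]
      refine Subgroup.mem_normalizer_fintype (S := (K : Set L)) fun b hb => ?_
      rw [inv_inv]
      exact hcl b hb
    simpa using N.inv_mem hmem
  -- counting
  have hindex : N.index = Nat.card (L ⧸ N) := Subgroup.index_eq_card N
  rw [hindex]
  refine B2_count K (L ⧸ N) ((1 : L) : L ⧸ N) ?_ ?_
  · intro k
    show ((((k : L) * 1 : L)) : L ⧸ N) = _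
    rw [mul_one]
    refine QuotientGroup.eq.2 ?_
    rw [mul_one]
    exact N.inv_mem (hKN k.2)
  · intro k x hx hkx
    obtain ⟨g, rfl⟩ := QuotientGroup.mk_surjective x
    by_contra hk
    have h1 : (((k : L) * g : L) : L ⧸ N) = (g : L ⧸ N) := hkx
    have h2 := QuotientGroup.eq.1 h1
    have h3 : g⁻¹ * (k : L) * g ∈ N := by
      have h4 := N.inv_mem h2
      have e1 : (((k : L) * g)⁻¹ * g)⁻¹ = g⁻¹ * (k : L) * g := by group
      rwa [e1] at h4
    have h5 := hTI g k k.2 (fun e => hk (Subtype.ext e)) h3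
    apply hx
    refine QuotientGroup.eq.2 ?_
    rw [mul_one]
    exact N.inv_mem h5

end Pool.Agent.helper53.AU
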