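import Pool.Agent.helper75.AU.SpecR

/-!
# Project au, module BA5: adjoining a free orbit to the ramification data
-/

namespace Pool.Agent.helper75.AU

set_option linter.unusedSectionVars false

open scoped Classical
open Pool.Agent.helper53.AU MulAction

noncomputable section

variable {k G X : Type} [Field k] [Group G] [Fintype G] [MulAction G X] [Fintype X] {g : ℕ}

theorem BA5_inr {h s : G} (hs : s • (Sum.inr h : X ⊕ G) = Sum.inr h) : s = 1 := by
  have h1 : (Sum.inr (s * h) : X ⊕ G) = Sum.inr h := hs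
  have h2 : s * h = h := Sum.inr_injective h1
  simpa using h2

theorem BA5_inl {x : X} {s : G} : s • (Sum.inl x : X ⊕ G) = Sum.inl x ↔ s • x = x := by
  constructor
  · intro hs
    exact Sum.inl_injective (β := G) hs
  · intro hs
    exact congrArg Sum.inl hs

theorem BA5_le (x : X) : stabilizer G (Sum.inl x : X ⊕ G) ≤ stabilizer G x := by
  intro s hs
  rw [mem_stabilizer_iff] at hs ⊢
  exact BA5_inl.1 hs

theorem BA5_bot (h : G) : stabilizer G (Sum.inr h : X ⊕ G) = ⊥ := by
  rw [eq_bot_iff]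
  intro s hs
  rw [mem_stabilizer_iff] at hs
  exact Subgroup.mem_bot.2 (BA5_inr hs)

/-- the indices -/
def BA5_i (R : Ram k G X g) : X ⊕ G → G → ℕ
  | Sum.inl x, s => R.i x s
  | Sum.inr _, _ => 0

/-- the characters -/
def BA5_th (R : Ram k G X g) : ∀ x : X ⊕ G, stabilizer G x →* kˣ
  | Sum.inl x => (R.θ x).comp (Subgroup.inclusion (BA5_le x))
  | Sum.inr _ => 1

theorem BA5_ker (R : Ram k G X g) (x : X) :
    ((BA5_th R (Sum.inl x)).ker).map (stabilizer G (Sum.inl x : X ⊕ G)).subtype =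
      ((R.θ x).ker).map (stabilizer G x).subtype := by
  ext s
  simp only [Subgroup.mem_map, MonoidHom.mem_ker, Subgroup.coe_subtype]
  constructor
  · rintro ⟨y, hy, rfl⟩
    exact ⟨⟨y.1, BA5_le x y.2⟩, hy, rfl⟩
  · rintro ⟨y, hy, rfl⟩
    have h1 : (y : G) ∈ stabilizer G (Sum.inl x : X ⊕ G) := by
      rw [mem_stabilizer_iff]
      exact BA5_inl.2 y.2
    exact ⟨⟨y.1, h1⟩, hy, rfl⟩

theorem BA5_kerr (R : Ram k G X g) (h : G) :
    ((BA5_th R (Sum.inr h)).ker).map (stabilizer G (Sum.inr h : X ⊕ G)).subtype = ⊥ := by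
  rw [eq_bot_iff]
  intro s hs
  obtain ⟨y, hy, rfl⟩ := Subgroup.mem_map.1 hs
  exact Subgroup.mem_bot.2 (BA5_inr y.2)

/-- the extended data -/
def BA5_ram (R : Ram k G X g) : Ram k G (X ⊕ G) g where
  i := BA5_i R
  θ := BA5_th R
  conj := by
    rintro a s (x | h)
    · exact R.conj a s x
    · rfl
  inv := by
    rintro (x | h) s hs
    · exact R.inv x s (BA5_inl.1 hs)
    · rfl
  ultra := by
    rintro (x | h) s t hs ht hs1 ht1 hst
    · exact R.ultra x s t (BA5_inl.1 hs) (BA5_inl.1 ht) hs1 ht1 hst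
    · exact absurd (BA5_inr hs) hs1
  tame := by
    rintro (x | h) s
    · exact R.tame x ⟨s.1, BA5_le x s.2⟩
    · constructor
      · intro _
        exact Or.inl (BA5_inr s.2)
      · intro _
        rfl
  wild := by
    rintro (x | h) s hs hs1 hi
    · exact R.wild x s (BA5_inl.1 hs) hs1 hi
    · exact absurd (BA5_inr hs) hs1
  lead := by
    rintro (x | h) c s hs hs1 hi
    · exact R.lead x ⟨c.1, BA5_le x c.2⟩ s (BA5_inl.1 hs) hs1 hi
    · exact absurd (BA5_inr hs) hs1
  θconj := by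
    rintro a (x | h) c hh
    · exact R.θconj a x ⟨c.1, BA5_le x c.2⟩ (BA5_le (a • x) hh)
    · rfl
  cong3 := by
    rintro (x | h) s t hs ht hs1 ht1 his hit
    · exact R.cong3 x s t (BA5_inl.1 hs) (BA5_inl.1 ht) hs1 ht1 his hit
    · exact absurd (BA5_inr hs) hs1
  prime3 := by
    rintro (x | h) s hs hs1 hi
    · exact R.prime3 x s (BA5_inl.1 hs) hs1 hi
    · exact absurd (BA5_inr hs) hs1
  herbrand := by
    rintro (x | h) Q hQ hn hc
    · rw [BA5_ker] at hQ hc
      obtain ⟨j, h1, h2, h3⟩ := R.herbrand x Q hQ (fun c hc' q hq => hn c (by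
        rw [mem_stabilizer_iff]
        exact BA5_inl.2 hc') q hq) hc
      refine ⟨j, h1, ?_, ?_⟩
      · rw [BA5_ker]
        exact h2
      · intro c
        rw [BA5_ker]
        exact h3 ⟨c.1, BA5_le x c.2⟩
    · exfalso
      rw [BA5_kerr, Subgroup.card_bot] at hc
      omega
  RH := by
    intro H
    obtain ⟨γ, hγ⟩ := R.RH H
    refine ⟨γ, ?_⟩
    rw [Fintype.sum_sum_type, hγ]
    congr 1
    refine (add_zero _).symm.trans (congrArg₂ (· + ·) ?_ ?_)
    · refine Finset.sum_congr rfl fun x _ => ?_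
      refine Finset.sum_congr ?_ fun s _ => rfl
      ext s
      simp only [Finset.mem_filter]
      rw [BA5_inl]
    · symm
      refine Finset.sum_eq_zero fun h _ => ?_
      refine Finset.sum_eq_zero fun s hs => ?_
      simp only [Finset.mem_filter, Finset.mem_univ, true_and] at hs
      exact absurd (BA5_inr hs.2.2) hs.2.1

theorem BA5 : BA5_stmt := by
  intro k G X _ _ _ _ _ g R
  exact ⟨X ⊕ G, inferInstance, inferInstance, BA5_ram R, Sum.inr 1, BA5_bot 1⟩

end

end Pool.Agent.helper75.AU
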