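import Pool.Agent.helper75.AU.SpecR2

/-!
# Project au: module BSS (statement BSS_stmt of SpecR2.lean)
-/

set_option linter.unusedVariables false

namespace Pool.Agent.helper75.AU

open scoped Classical
open Pool.Agent.helper53.AU MulAction

theorem BSS_card_aux (G : Type) [CommGroup G] [IsCyclic G] [Finite G] (r : ℕ) (hr : r ∣ Nat.card G) :
    Nat.card {a : G // a ^ r = 1} = r := by
  have h := IsCyclic.card_powMonoidHom_ker (G := G) r
  rw [Nat.gcd_eq_right hr] at h
  refine Eq.trans ?_ h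
  apply Nat.card_congr
  exact Equiv.subtypeEquivRight (fun a => by simp [MonoidHom.mem_ker])

theorem BSS_card (W : Type) [Group W] [Finite W] (A : Subgroup W) (hA : IsCyclic A) (r : ℕ)
    (hr : r ∣ Nat.card A) : Nat.card {a : W // a ∈ A ∧ a ^ r = 1} = r := by
  have h := @BSS_card_aux A (IsCyclic.commGroup (α := A)) hA _ r hr
  refine Eq.trans ?_ h
  apply Nat.card_congr
  refine ⟨fun a => ⟨⟨a.1, a.2.1⟩, Subtype.ext a.2.2⟩, fun a => ⟨a.1.1, a.1.2, congrArg Subtype.val a.2⟩,
    fun a => rfl, fun a => rfl⟩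

/-- BSS: (S1) in the form of SpecR. -/
theorem BSS : BSS_stmt := by
  intro hSR W Om _ _ _ _ _ A hP hA ht hnp
  by_cases h1 : Nat.card Om ≤ 1
  · intro a b c d hab hcd
    have : Subsingleton Om := Finite.card_le_one_iff_subsingleton.1 h1
    exact absurd (Subsingleton.elim a b) hab
  have hne : Nonempty Om := by
    by_contra hc
    rw [not_nonempty_iff] at hc
    simp at h1
  obtain ⟨ω⟩ := hne
  have hcomm : ∀ a ∈ A, ∀ b ∈ A, a * b = b * a := by
    intro a ha b hb
    have hc := (IsCyclic.commGroup (α := A)).mul_comm ⟨a, ha⟩ ⟨b, hb⟩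
    exact congrArg Subtype.val hc
  have hfree : ∀ a ∈ A, ∀ α : Om, a • α = α → a = 1 := by
    intro a ha α hα
    apply FaithfulSMul.eq_of_smul_eq_smul (α := Om)
    intro β
    obtain ⟨b, hb, rfl⟩ := ht α β
    rw [one_smul, ← mul_smul, hcomm a ha b hb, mul_smul, hα]
  have hcardA : Nat.card A = Nat.card Om := by
    apply Nat.card_congr
    refine Equiv.ofBijective (fun a : A => (a : W) • ω) ⟨?_, ?_⟩
    · intro a b hab
      have h2 : (b : W)⁻¹ * (a : W) = 1 := by
        apply hfree _ (A.mul_mem (A.inv_mem b.2) a.2) ω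
        rw [mul_smul]
        have : (a : W) • ω = (b : W) • ω := hab
        rw [this, inv_smul_smul]
      apply Subtype.ext
      have := mul_eq_one_iff_eq_inv.1 h2
      rw [inv_inj] at this
      exact this.symm
    · intro β
      obtain ⟨v, hv, hvβ⟩ := ht ω β
      exact ⟨⟨v, hv⟩, hvβ⟩
  set n := Nat.card Om with hn
  have hn2 : 2 ≤ n := by omega
  obtain ⟨r, hr, hrn⟩ := Nat.exists_prime_and_dvd (show n ≠ 1 by omega)
  have hrlt : r < n := by
    rcases lt_or_eq_of_le (Nat.le_of_dvd (by omega) hrn) with h | h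
    · exact h
    · exact absurd (h ▸ hr) hnp
  have htr : IsPretransitive W Om := ⟨fun a b => by
    obtain ⟨v, _, hv⟩ := ht a b
    exact ⟨v, hv⟩⟩
  refine hSR W Om A ⊥ ω r htr hP hcomm ?_ ?_ hr (BSS_card W A hA r (hcardA ▸ hrn)) ?_ hrlt ?_
  · intro a _ e he
    rw [Subgroup.mem_bot] at he
    rw [he, mul_one, one_mul]
  · intro α β
    obtain ⟨v, hv, hvβ⟩ := ht α β
    refine ⟨(⟨v, hv⟩, 1), ?_, ?_⟩
    · simpa using hvβ
    · rintro ⟨⟨a, ha⟩, ⟨e, he⟩⟩ h
      have he1 : e = 1 := by rwa [Subgroup.mem_bot] at he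
      subst he1
      have h3 : a • α = β := by simpa using h
      have h4 : v⁻¹ * a = 1 := by
        apply hfree _ (A.mul_mem (A.inv_mem hv) ha) α
        rw [mul_smul, h3, ← hvβ, inv_smul_smul]
      have h5 : a = v := (inv_mul_eq_one.1 h4).symm
      subst h5
      rfl
  · rw [Subgroup.card_bot]
    exact hr.one_lt.ne' ∘ Nat.dvd_one.1
  · intro a _ e₁ he₁ e₂ _ h _
    exact absurd (Subgroup.mem_bot.1 he₁) h

end Pool.Agent.helper75.AU
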