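import Pool.Agent.helper87.AU.SpecQ1

/-!
# Project au: module QD4 (statement QD4_stmt of SpecQ1.lean)
-/

namespace Pool.Agent.helper53.AU

open scoped Classical IntermediateField
open Polynomial (aeval)

noncomputable section

variable {k F : Type} [Field k] [Field F] [Algebra k F]

/-- evaluation of a polynomial in two variables at `(x, α)` -/
def QD4_E (x α : F) (g : Polynomial (Polynomial k)) : F :=
  Polynomial.eval₂ (aeval x : Polynomial k →ₐ[k] F).toRingHom α g

/-- a coefficientwise operation followed by the evaluation at `(x, α)` -/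
def QD4_G (x α : F) (T : Polynomial k →+ Polynomial k) (g : Polynomial (Polynomial k)) : F :=
  g.sum fun i c => aeval x (T c) * α ^ i

theorem QD4_G_add (x α : F) (T : Polynomial k →+ Polynomial k) (g h : Polynomial (Polynomial k)) :
    QD4_G x α T (g + h) = QD4_G x α T g + QD4_G x α T h := by
  unfold QD4_G
  apply Polynomial.sum_add_index
  · intro i; simp
  · intro i a b
    simp [add_mul]

theorem QD4_G_monomial (x α : F) (T : Polynomial k →+ Polynomial k) (i : ℕ) (c : Polynomial k) :
    QD4_G x α T (Polynomial.monomial i c) = aeval x (T c) * α ^ i := by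
  unfold QD4_G
  apply Polynomial.sum_monomial_index
  simp

theorem QD4_E_monomial (x α : F) (i : ℕ) (c : Polynomial k) :
    QD4_E x α (Polynomial.monomial i c) = aeval x c * α ^ i := by
  unfold QD4_E
  rw [Polynomial.eval₂_monomial]
  rfl

theorem QD4_E_add (x α : F) (g h : Polynomial (Polynomial k)) :
    QD4_E x α (g + h) = QD4_E x α g + QD4_E x α h := by
  unfold QD4_E
  rw [Polynomial.eval₂_add]

theorem QD4_deriv (D : Derivation k F F) (x α : F) (g : Polynomial (Polynomial k)) :
    D (QD4_E x α g) = QD4_E x α g.derivative * D α +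
      QD4_G x α (Polynomial.derivative (R := k)).toAddMonoidHom g * D x := by
  induction g using Polynomial.induction_on' with
  | add p q hp hq =>
    rw [QD4_E_add, map_add, hp, hq, Polynomial.derivative_add, QD4_E_add, QD4_G_add]
    ring
  | monomial i c =>
    rw [QD4_E_monomial, QD4_G_monomial, Polynomial.derivative_monomial, QD4_E_monomial,
      Derivation.leibniz, Derivation.map_aeval, Derivation.leibniz_pow]
    simp only [smul_eq_mul, nsmul_eq_mul, map_mul, map_natCast, LinearMap.toAddMonoidHom_coe]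
    ring

theorem QD4_aeval_mem (S : Subalgebra k F) {x : F} (hx : x ∈ S) (c : Polynomial k) : aeval x c ∈ S := by
  have h := Polynomial.aeval_mem_adjoin_singleton k (p := c) x
  exact (Algebra.adjoin_le (Set.singleton_subset_iff.mpr hx)) h

theorem QD4_G_mem (S : Subalgebra k F) {x α : F} (hx : x ∈ S) (hα : α ∈ S)
    (T : Polynomial k →+ Polynomial k) (g : Polynomial (Polynomial k)) : QD4_G x α T g ∈ S := by
  induction g using Polynomial.induction_on' with
  | add p q hp hq => rw [QD4_G_add]; exact S.add_mem hp hq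
  | monomial i c =>
    rw [QD4_G_monomial]
    exact S.mul_mem (QD4_aeval_mem S hx _) (S.pow_mem hα i)

theorem QD4_E_eq_G (x α : F) (g : Polynomial (Polynomial k)) :
    QD4_E x α g = QD4_G x α (AddMonoidHom.id _) g := by
  induction g using Polynomial.induction_on' with
  | add p q hp hq => rw [QD4_G_add, QD4_E_add, hp, hq]
  | monomial i c => rw [QD4_G_monomial, QD4_E_monomial]; rfl

/-- the order of `g(α)` is the multiplicity of the root -/
theorem QD4_ord (P : Place k F) (α : F) (c : k) (h : P.Unif (α - algebraMap k F c))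
    (g : Polynomial k) (hg : g ≠ 0) :
    aeval α g ≠ 0 ∧ P.ord (aeval α g) = (g.rootMultiplicity c : ℤ) := by
  obtain ⟨q, hq, hnd⟩ := Polynomial.exists_eq_pow_rootMultiplicity_mul_and_not_dvd g hg c
  have hqc : q.eval c ≠ 0 := by
    intro h0
    exact hnd (Polynomial.dvd_iff_isRoot.mpr h0)
  have hα : P.Ge 0 α := by
    have h1 : P.Ge 0 (α - algebraMap k F c) := Or.inr (by rw [h.2]; omega)
    have h2 := h1.add (P.ge_const c)
    rwa [sub_add_cancel] at h2
  have hge : ∀ r : Polynomial k, P.Ge 0 (aeval α r) := by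
    intro r
    induction r using Polynomial.induction_on' with
    | add p q hp hq => rw [map_add]; exact hp.add hq
    | monomial i a =>
      rw [Polynomial.aeval_monomial]
      have h3 := hα.pow i
      rw [mul_zero] at h3
      exact h3.const_mul a
  obtain ⟨q2, hq2⟩ : ∃ q2, q - Polynomial.C (q.eval c) = (Polynomial.X - Polynomial.C c) * q2 := by
    have : (Polynomial.X - Polynomial.C c) ∣ q - Polynomial.C (q.eval c) := by
      rw [Polynomial.dvd_iff_isRoot]
      simp
    exact this
  have hq3 : aeval α q = algebraMap k F (q.eval c) + (α - algebraMap k F c) * aeval α q2 := by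
    have : q = Polynomial.C (q.eval c) + (Polynomial.X - Polynomial.C c) * q2 := by
      rw [← hq2]; ring
    conv_lhs => rw [this]
    simp
  have hc0 : algebraMap k F (q.eval c) ≠ 0 := by
    rw [Ne, FaithfulSMul.algebraMap_eq_zero_iff]
    exact hqc
  have hcord : P.ord (algebraMap k F (q.eval c)) = 0 := P.ord_const _ hqc
  have h4 := Place.ord_add_eq (P := P) hc0 (g := (α - algebraMap k F c) * aeval α q2) (by
    rw [hcord]
    have h5 : P.Ge 1 (α - algebraMap k F c) := Or.inr (by rw [h.2])
    have h6 := h5.mul (hge q2)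
    simpa using h6)
  rw [← hq3, hcord] at h4
  have h7 : aeval α g = (α - algebraMap k F c) ^ (g.rootMultiplicity c) * aeval α q := by
    conv_lhs => rw [hq]
    simp
  rw [h7]
  refine ⟨mul_ne_zero (pow_ne_zero _ h.1) h4.1, ?_⟩
  rw [P.ord_mul _ _ (pow_ne_zero _ h.1) h4.1, P.ord_pow h.1, h.2, h4.2]
  ring

theorem QD4_det (x : F) {n : ℕ} (hn : 0 < n) (u : Fin n → F) (hu : ∀ i, u i ≠ 0) (α : F)
    (A : Matrix (Fin n) (Fin n) (Polynomial k)) (hA : MulMat x u α A) :
    QD4_E x α A.charpoly = 0 := by
  unfold QD4_E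
  rw [Polynomial.eval₂_eq_eval_map, ← Matrix.charpoly_map, Matrix.eval_charpoly]
  rw [← Matrix.exists_vecMul_eq_zero_iff]
  refine ⟨u, ?_, ?_⟩
  · intro h
    exact hu ⟨0, hn⟩ (congrFun h ⟨0, hn⟩)
  · funext j
    rw [Matrix.vecMul_sub]
    simp only [Pi.sub_apply, Pi.zero_apply, Matrix.scalar_apply, Matrix.vecMul_diagonal]
    have h1 := hA j
    rw [sub_eq_zero, mul_comm, h1]
    simp only [Matrix.vecMul, dotProduct, Matrix.map_apply]
    apply Finset.sum_congr rfl
    intro i _
    rw [mul_comm]
    rfl

theorem QD4_card {ι : Type} (S : Finset ι) (c : ι → k) (hc : ∀ i ∈ S, ∀ j ∈ S, c i = c j → i = j)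
    (g : Polynomial k) : ∑ i ∈ S, g.rootMultiplicity (c i) ≤ g.natDegree := by
  refine le_trans ?_ (Polynomial.card_roots' g)
  have h1 : ∑ i ∈ S, g.rootMultiplicity (c i) = ∑ r ∈ S.image c, g.rootMultiplicity r := by
    rw [Finset.sum_image]
    intro i hi j hj hij
    exact hc i hi j hj hij
  rw [h1]
  have h2 : ∀ r, g.rootMultiplicity r = Multiset.count r g.roots := fun r =>
    (Polynomial.count_roots g).symm
  rw [Finset.sum_congr rfl (fun r _ => h2 r)]
  rw [← Multiset.toFinset_sum_count_eq g.roots]
  apply Finset.sum_le_sum_of_ne_zero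
  intro r _ hr
  rw [Multiset.mem_toFinset]
  exact Multiset.count_ne_zero.mp hr

/-- QD4 -/
theorem QD4 (hN2 : QN2_stmt) (hV4 : QV4_stmt) : QD4_stmt := by
  intro k F _ _ _ _ hF P₀ x n u μ hu a α c hα hunif hinj
  have hAx : ∀ j, ∃ φ : Fin n → Polynomial k, α * u j = ∑ i, aeval x (φ i) * u i :=
    fun j => hu.span _ ((Reg P₀).mul_mem hα (hu.reg j))
  choose φ hφ using hAx
  set A : Matrix (Fin n) (Fin n) (Polynomial k) := fun i j => φ j i with hAdef
  have hA : MulMat x u α A := hφ
  set f := A.charpoly with hf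
  have hmon : f.Monic := Matrix.charpoly_monic A
  have hdeg : f.natDegree = n := by
    rw [hf, Matrix.charpoly_natDegree_eq_dim, Fintype.card_fin]
  have hE : QD4_E x α f = 0 := QD4_det x hu.pos u hu.ne α A hA
  refine ⟨f, hmon, hdeg, hE, QD4_G x α (Polynomial.derivative (R := k)).toAddMonoidHom f,
    QD4_E x α f.derivative, rfl, ?_, ?_, ?_⟩
  · intro D
    rw [← QD4_deriv D x α f, hE, map_zero]
  · rw [QD4_E_eq_G]
    exact QD4_G_mem _ hu.xreg hα _ _
  -- the decomposition
  have hq : ∀ p : Polynomial k, ∃ q : Polynomial k,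
      p = Polynomial.C (p.eval a) + (Polynomial.X - Polynomial.C a) * q := by
    intro p
    have : (Polynomial.X - Polynomial.C a) ∣ p - Polynomial.C (p.eval a) := by
      rw [Polynomial.dvd_iff_isRoot]
      simp
    obtain ⟨q, hq⟩ := this
    exact ⟨q, by rw [← hq]; ring⟩
  choose q hq using hq
  set h : F := ∑ i ∈ Finset.range (f.natDegree + 1), aeval x (q (f.coeff i)) * α ^ i with hh
  set h' : F := ∑ i ∈ Finset.range (f.natDegree + 1),
    aeval x (Polynomial.derivative (q (f.coeff i))) * α ^ i with hh'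
  set g : Polynomial k := f.map (Polynomial.evalRingHom a) with hg
  set z : F := x - algebraMap k F a with hz
  have hgmon : g.Monic := hmon.map _
  have hgdeg : g.natDegree = n := by rw [hg, hmon.natDegree_map, hdeg]
  have haev : aeval x (Polynomial.X - Polynomial.C a) = z := by simp [hz]
  have hga : aeval α g = -(z * h) := by
    have h1 : aeval α g = ∑ i ∈ Finset.range (f.natDegree + 1),
        algebraMap k F ((f.coeff i).eval a) * α ^ i := by
      rw [hg, Polynomial.aeval_def, Polynomial.eval₂_map, Polynomial.eval₂_eq_sum_range]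
      rfl
    have h2 : QD4_E x α f = ∑ i ∈ Finset.range (f.natDegree + 1), aeval x (f.coeff i) * α ^ i := by
      unfold QD4_E
      rw [Polynomial.eval₂_eq_sum_range]
      rfl
    have h3 : QD4_E x α f = aeval α g + z * h := by
      rw [h1, h2, hh, Finset.mul_sum, ← Finset.sum_add_distrib]
      apply Finset.sum_congr rfl
      intro i _
      conv_lhs => rw [hq (f.coeff i)]
      rw [map_add, map_mul, haev, Polynomial.aeval_C]
      ring
    rw [hE] at h3
    linear_combination -h3
  have hfx : QD4_G x α (Polynomial.derivative (R := k)).toAddMonoidHom f = h + z * h' := by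
    have h1 : QD4_G x α (Polynomial.derivative (R := k)).toAddMonoidHom f =
        ∑ i ∈ Finset.range (f.natDegree + 1), aeval x (Polynomial.derivative (f.coeff i)) * α ^ i := by
      unfold QD4_G
      rw [Polynomial.sum_over_range]
      · rfl
      · intro i; simp
    rw [h1, hh, hh', Finset.mul_sum, ← Finset.sum_add_distrib]
    apply Finset.sum_congr rfl
    intro i _
    conv_lhs => rw [hq (f.coeff i)]
    rw [Polynomial.derivative_add, Polynomial.derivative_C, Polynomial.derivative_mul,
      Polynomial.derivative_sub, Polynomial.derivative_X, Polynomial.derivative_C, map_add, map_add,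
      map_mul, map_mul, haev]
    simp
    ring
  intro P hP
  have hz0 : z ≠ 0 := by
    intro h0
    rw [h0, P.ord_zero] at hP
    exact lt_irrefl _ hP
  have hzP0 : P₀.ord z = -(n : ℤ) := by
    have hx0 : x ≠ 0 := by
      intro h0
      have := hu.xord
      rw [h0, P₀.ord_zero] at this
      have := hu.pos
      omega
    have h1 := Place.ord_add_eq (P := P₀) hx0 (g := algebraMap k F (-a)) (by
      have h2 := P₀.ge_const (-a)
      refine h2.mono ?_
      rw [hu.xord]
      have := hu.pos
      omega)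
    rw [hz, sub_eq_add_neg, ← map_neg, h1.2, hu.xord]
  have hreg_h : h ∈ Reg P₀ := by
    apply Subalgebra.sum_mem
    intro i _
    exact (Reg P₀).mul_mem (QD4_aeval_mem _ hu.xreg _) ((Reg P₀).pow_mem hα i)
  have hreg_h' : h' ∈ Reg P₀ := by
    apply Subalgebra.sum_mem
    intro i _
    exact (Reg P₀).mul_mem (QD4_aeval_mem _ hu.xreg _) ((Reg P₀).pow_mem hα i)
  have hne0 : ∀ Q : Place k F, 0 < Q.ord z → Q ≠ P₀ := by
    intro Q hQ h0
    rw [h0, hzP0] at hQ
    have := hu.pos
    omega
  -- every place above `a`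
  have hkey : ∀ Q : Place k F, 0 < Q.ord z → h ≠ 0 ∧
      (g.rootMultiplicity (c Q) : ℤ) = Q.ord z + Q.ord h ∧ 0 ≤ Q.ord h := by
    intro Q hQ
    have h1 := QD4_ord Q α (c Q) (hunif Q hQ) g hgmon.ne_zero
    have hh0 : h ≠ 0 := by
      intro h0
      rw [hga, h0, mul_zero, neg_zero] at h1
      exact h1.1 rfl
    refine ⟨hh0, ?_, ?_⟩
    · rw [← h1.2, hga, Q.ord_neg, Q.ord_mul _ _ hz0 hh0]
    · exact (hreg_h Q (hne0 Q hQ)).le hh0
  have hfin := hV4 k F hF z hz0
  set S : Finset (Place k F) := hfin.toFinset.filter (fun Q => 0 < Q.ord z) with hS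
  have hSmem : ∀ Q, Q ∈ S ↔ 0 < Q.ord z := by
    intro Q
    rw [hS, Finset.mem_filter, Set.Finite.mem_toFinset, Function.mem_support]
    constructor
    · exact fun h => h.2
    · exact fun h => ⟨h.ne', h⟩
  have hsum : ∑ Q ∈ S, Q.ord z = (n : ℤ) := by
    have hM : MulMat x u z (Matrix.diagonal fun _ : Fin n => (Polynomial.X - Polynomial.C a)) := by
      intro j
      rw [Finset.sum_eq_single j]
      · rw [Matrix.diagonal_apply_eq, haev]
      · intro i _ hij
        rw [Matrix.diagonal_apply_ne _ hij, map_zero, zero_mul]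
      · intro h; exact absurd (Finset.mem_univ j) h
    have hzreg : z ∈ Reg P₀ := (Reg P₀).sub_mem hu.xreg ((Reg P₀).algebraMap_mem a)
    have h1 := hN2 k F hF P₀ x n u μ hu z hzreg hz0 _ hM a
    have h2 : ((Matrix.diagonal fun _ : Fin n => (Polynomial.X - Polynomial.C a)) :
        Matrix (Fin n) (Fin n) (Polynomial k)).det = (Polynomial.X - Polynomial.C a) ^ n := by
      rw [Matrix.det_diagonal, Finset.prod_const, Finset.card_univ, Fintype.card_fin]
    rw [h2, Polynomial.rootMultiplicity_X_sub_C_pow] at h1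
    rw [h1]
    rw [finsum_eq_sum_of_support_subset (s := S)]
    · apply Finset.sum_congr rfl
      intro Q hQ
      rw [hSmem] at hQ
      have hQ' : 0 < Q.ord (x - algebraMap k F a) := hQ
      rw [if_pos hQ']
    · intro Q hQ
      rw [Function.mem_support] at hQ
      rw [Finset.mem_coe, hSmem]
      by_contra hc
      have hc' : ¬ 0 < Q.ord (x - algebraMap k F a) := hc
      rw [if_neg hc'] at hQ
      exact hQ rfl
  have hle : ∑ Q ∈ S, (g.rootMultiplicity (c Q) : ℤ) ≤ (n : ℤ) := by
    have h1 := QD4_card S c (fun i hi j hj hij =>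
      hinj i j ((hSmem i).mp hi) ((hSmem j).mp hj) hij) g
    rw [hgdeg] at h1
    exact_mod_cast h1
  have hPS : P ∈ S := (hSmem P).mpr hP
  obtain ⟨hh0, hP1, hP2⟩ := hkey P hP
  have hord : P.ord h = 0 := by
    by_contra hne
    have h3 : ∑ Q ∈ S, Q.ord z < ∑ Q ∈ S, (g.rootMultiplicity (c Q) : ℤ) := by
      apply Finset.sum_lt_sum
      · intro Q hQ
        obtain ⟨_, h4, h5⟩ := hkey Q ((hSmem Q).mp hQ)
        omega
      · refine ⟨P, hPS, ?_⟩
        omega
    omega
  have h6 := Place.ord_add_eq (P := P) hh0 (g := z * h') (by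
    rw [hord]
    have h7 : P.Ge 1 z := Or.inr (by omega)
    have h8 := h7.mul (hreg_h' P (hne0 P hP))
    simpa using h8)
  rw [hfx]
  exact ⟨h6.1, by rw [h6.2, hord]⟩

end

end Pool.Agent.helper53.AU
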